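import Mathlib
import Pool.Agent.Helper94_Pisot.Criterion

/-!
# Abelianized Fox calculus of substitutions: definitions
-/

set_option autoImplicit false

namespace Pool.Agent.Minor

/-- The Laurent polynomial ring `ℤ[ℤ^d]`. -/
abbrev Lau (d : ℕ) := AddMonoidAlgebra ℤ (Fin d → ℤ)

variable {d : ℕ}

/-- The monomial `X^v`. -/
noncomputable def mon (v : Fin d → ℤ) : Lau d := AddMonoidAlgebra.single v 1

/-- The monomial `X_a`. -/
noncomputable def var (a : Fin d) : Lau d := mon (Pi.single a 1)

/-- The monomial `X_a⁻¹`. -/
noncomputable def varInv (a : Fin d) : Lau d := mon (Pi.single a (-1))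

/-- The `ℓ¹` norm of a Laurent polynomial: the sum of the absolute values of its coefficients. -/
noncomputable def nm (p : Lau d) : ℕ := ∑ v ∈ p.coeff.support, (p.coeff v).natAbs

/-- The abelianized Fox derivative of a word: the sum, over the occurrences `w = p i s` of the
letter `i`, of the monomial `X^(content of p)`. -/
noncomputable def fox : List (Fin d) → Fin d → Lau d
  | [], _ => 0
  | a :: w, i => (if a = i then 1 else 0) + var a * fox w i

/-- The `2 × 2` minor of the abelianized Fox matrix of the substitution `t`, rows `a, b`, columns
`i, j`. -/
noncomputable def minor (t : Fin d → List (Fin d)) (a b i j : Fin d) : Lau d :=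
  fox (t a) i * fox (t b) j - fox (t a) j * fox (t b) i

/-- Pairs `a < b` of letters. -/
abbrev Pairs (d : ℕ) := {p : Fin d × Fin d // p.1 < p.2}

/-- The matrix of the `ℓ¹` norms of the `2 × 2` minors. -/
noncomputable def kap (t : Fin d → List (Fin d)) : Matrix (Pairs d) (Pairs d) ℕ :=
  fun p q => nm (minor t p.1.1 p.1.2 q.1.1 q.1.2)

/-- The abelianized Fox derivative of a word in the letters and their inverses (`(a, true)` is the
letter `a`, `(a, false)` is its inverse). -/
noncomputable def foxL : List (Fin d × Bool) → Fin d → Lau d
  | [], _ => 0
  | (a, true) :: w, i => (if a = i then 1 else 0) + var a * foxL w i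
  | (a, false) :: w, i => -(if a = i then varInv a else 0) + varInv a * foxL w i

/-- The flow norm of an element of the free group: the sum over all edges of the Cayley graph of
`ℤ^d` of the absolute value of the net number of passes of the path of the reduced word `u`. -/
noncomputable def flowNorm (u : FreeGroup (Fin d)) : ℕ := ∑ i, nm (foxL u.toWord i)

end Pool.Agent.Minor
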