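import Mathlib
import Pool.Agent.Helper8_Minor.Defs

/-!
# Statements of the squad MINORS
-/

set_option autoImplicit false

namespace Pool.Agent.Minor

open Pool.Agent.Helper94_Pisot

/-- The `2 × 2` minors of the abelianized Fox matrices of the powers of `σ` are `o(r^J)` along
some sequence. -/
def MinorSmall {d : ℕ} (σ : Fin d → List (Fin d)) (r : ℝ) : Prop :=
  ∀ ε : ℝ, 0 < ε → ∃ J : ℕ, ∀ a b i j : Fin d,
    (nm (minor (fun x => it σ J [x]) a b i j) : ℝ) ≤ ε * r ^ J

/-- helper8: small minors imply small Hamming distances. -/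
def SwapStmt : Prop :=
  ∀ (d : ℕ) (σ : Fin d → List (Fin d)) (r : ℝ), 0 < r → MinorSmall σ r → SwapSmall σ r

/-- helper8: part A, the criterion with the matrices `kap`. -/
def KapStmt : Prop :=
  ∀ (d : ℕ) (σ : Fin d → List (Fin d)) (r : ℝ), 0 < r →
    ∀ (L : List (Fin d → List (Fin d))) (e : ℕ),
    (∀ a, it σ e [a] = L.foldl (fun w t => w.flatMap t) [a]) →
    (∀ ε : ℝ, 0 < ε → ∃ n : ℕ, ∀ p q : Pairs d,
      ((((L.map kap).prod ^ n) p q : ℕ) : ℝ) ≤ ε * r ^ (e * n)) →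
    MinorSmall σ r

/-- Sign coherence of the substitution `t` with respect to the sign pattern `s`. -/
def Coherent {d : ℕ} (s : Fin d → Fin d → ℤ) (t : Fin d → List (Fin d)) : Prop :=
  ∃ δ : ℤ, (δ = 1 ∨ δ = -1) ∧ ∀ a b i j : Fin d, a < b → i < j → ∀ v : Fin d → ℤ,
    0 ≤ δ * s a b * s i j * (minor t a b i j).coeff v

/-- helper11: part B, the sign coherent class. -/
def CohStmt : Prop :=
  ∀ (d : ℕ) (σ : Fin d → List (Fin d)) (M : Matrix (Fin d) (Fin d) ℤ) (r : ℝ)
    (f l : Fin d → ℝ) (C θ : ℝ), PData σ M r f l C θ →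
    ∀ (s : Fin d → Fin d → ℤ), (∀ a b, a < b → s a b = 1 ∨ s a b = -1) →
    ∀ (L : List (Fin d → List (Fin d))), (∀ t ∈ L, Coherent s t) →
    ∀ e : ℕ, 1 ≤ e → (∀ a, it σ e [a] = L.foldl (fun w t => w.flatMap t) [a]) →
    MinorSmall σ r

/-- The elementary substitutions between neighbouring letters: `i ↦ ij` or `i ↦ ji` with
`|i - j| = 1`, all other letters fixed. -/
def Elementary {d : ℕ} (t : Fin d → List (Fin d)) : Prop :=
  ∃ i j : Fin d, ((i : ℕ) = j + 1 ∨ (j : ℕ) = i + 1) ∧ (t i = [i, j] ∨ t i = [j, i]) ∧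
    ∀ k, k ≠ i → t k = [k]

/-- helper11: the elementary substitutions between neighbouring letters are coherent. -/
def EleStmt : Prop :=
  ∀ (d : ℕ) (t : Fin d → List (Fin d)), Elementary t → Coherent (fun _ _ => 1) t

/-- helper38: part C, substitutions which are automorphisms of the free group and whose inverse
grows slowly. -/
def InvStmt : Prop :=
  ∀ (d : ℕ), 2 ≤ d → ∀ (σ : Fin d → List (Fin d)) (r : ℝ), 0 < r →
    ∀ ψ : FreeGroup (Fin d) ≃* FreeGroup (Fin d),
    (∀ a, ψ (FreeGroup.of a) = ((σ a).map FreeGroup.of).prod) →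
    (∀ ε : ℝ, 0 < ε → ∃ n : ℕ, ∀ a : Fin d,
      ((flowNorm ((ψ.symm : FreeGroup (Fin d) → FreeGroup (Fin d))^[n] (FreeGroup.of a)) : ℕ) : ℝ)
        ^ (d - 2) ≤ ε * r ^ n) →
    MinorSmall σ r

/-- helper38: the flow norm is at most the length of the reduced word. -/
def LenStmt : Prop :=
  ∀ (d : ℕ) (u : FreeGroup (Fin d)), flowNorm u ≤ u.toWord.length

end Pool.Agent.Minor
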