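import Mathlib
import Pool.Agent.Helper8_Minor.Defs

/-!
# The `ℓ¹` norm on `ℤ[ℤ^d]`
-/

set_option autoImplicit false

namespace Pool.Agent.Minor

open Finset

variable {d : ℕ}

theorem nm_eq_sum (p : Lau d) (s : Finset (Fin d → ℤ)) (h : p.coeff.support ⊆ s) :
    nm p = ∑ v ∈ s, (p.coeff v).natAbs := by
  unfold nm
  refine sum_subset h fun v _ hv => ?_
  rw [Finsupp.notMem_support_iff.1 hv]
  rfl

@[simp] theorem nm_zero : nm (0 : Lau d) = 0 := by
  simp [nm]

@[simp] theorem nm_single (v : Fin d → ℤ) (c : ℤ) :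
    nm (AddMonoidAlgebra.single v c : Lau d) = c.natAbs := by
  rw [nm_eq_sum _ {v} (by simpa using Finsupp.support_single_subset)]
  simp

@[simp] theorem nm_mon (v : Fin d → ℤ) : nm (mon v : Lau d) = 1 := by
  simp [mon]

@[simp] theorem nm_one : nm (1 : Lau d) = 1 := by
  rw [AddMonoidAlgebra.one_def, nm_single]
  rfl

theorem nm_add_le (p q : Lau d) : nm (p + q) ≤ nm p + nm q := by
  classical
  have h1 := nm_eq_sum p (p.coeff.support ∪ q.coeff.support) subset_union_left
  have h2 := nm_eq_sum q (p.coeff.support ∪ q.coeff.support) subset_union_right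
  have h3 := nm_eq_sum (p + q) (p.coeff.support ∪ q.coeff.support) (by
    rw [AddMonoidAlgebra.coeff_add]
    exact Finsupp.support_add)
  rw [h1, h2, h3, ← sum_add_distrib]
  refine sum_le_sum fun v _ => ?_
  rw [AddMonoidAlgebra.coeff_add, Finsupp.add_apply]
  exact Int.natAbs_add_le _ _

@[simp] theorem nm_neg (p : Lau d) : nm (-p) = nm p := by
  unfold nm
  rw [AddMonoidAlgebra.coeff_neg, Finsupp.support_neg]
  refine sum_congr rfl fun v _ => ?_
  rw [Finsupp.neg_apply, Int.natAbs_neg]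

theorem nm_sub_le (p q : Lau d) : nm (p - q) ≤ nm p + nm q := by
  rw [sub_eq_add_neg]
  exact (nm_add_le _ _).trans (by rw [nm_neg])

theorem nm_sum_le {ι : Type*} (s : Finset ι) (f : ι → Lau d) :
    nm (∑ i ∈ s, f i) ≤ ∑ i ∈ s, nm (f i) := by
  classical
  induction s using Finset.induction_on with
  | empty => simp
  | insert a s ha ih =>
    rw [sum_insert ha, sum_insert ha]
    exact (nm_add_le _ _).trans (Nat.add_le_add_left ih _)

theorem nm_mul_le (p q : Lau d) : nm (p * q) ≤ nm p * nm q := by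
  classical
  rw [AddMonoidAlgebra.mul_def]
  unfold Finsupp.sum
  refine (nm_sum_le _ _).trans ?_
  unfold nm
  rw [sum_mul]
  refine sum_le_sum fun v _ => ?_
  refine (nm_sum_le _ _).trans ?_
  rw [mul_sum]
  refine sum_le_sum fun w _ => ?_
  rw [nm_single, Int.natAbs_mul]

theorem nm_prod_le {ι : Type*} (s : Finset ι) (f : ι → Lau d) :
    nm (∏ i ∈ s, f i) ≤ ∏ i ∈ s, nm (f i) := by
  classical
  induction s using Finset.induction_on with
  | empty => simp
  | insert a s ha ih =>
    rw [prod_insert ha, prod_insert ha]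
    exact (nm_mul_le _ _).trans (Nat.mul_le_mul_left _ ih)

theorem nm_mon_mul (v : Fin d → ℤ) (p : Lau d) : nm (mon v * p) ≤ nm p := by
  have := nm_mul_le (mon v) p
  simpa using this

/-- The ring homomorphism of `ℤ[ℤ^d]` induced by an endomorphism of `ℤ^d`. -/
noncomputable def phi (g : (Fin d → ℤ) →+ (Fin d → ℤ)) : Lau d →+* Lau d :=
  AddMonoidAlgebra.mapDomainRingHom ℤ g

theorem phi_single (g : (Fin d → ℤ) →+ (Fin d → ℤ)) (v : Fin d → ℤ) (c : ℤ) :
    phi g (AddMonoidAlgebra.single v c) = AddMonoidAlgebra.single (g v) c := by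
  simp [phi]

@[simp] theorem phi_mon (g : (Fin d → ℤ) →+ (Fin d → ℤ)) (v : Fin d → ℤ) :
    phi g (mon v) = mon (g v) := phi_single g v 1

theorem nm_phi_le (g : (Fin d → ℤ) →+ (Fin d → ℤ)) (p : Lau d) : nm (phi g p) ≤ nm p := by
  classical
  have h : phi g p = ∑ v ∈ p.coeff.support, AddMonoidAlgebra.single (g v) (p.coeff v) := by
    conv_lhs => rw [← AddMonoidAlgebra.ofCoeff_coeff p, ← Finsupp.sum_single p.coeff]
    unfold Finsupp.sum
    rw [AddMonoidAlgebra.ofCoeff_sum, map_sum]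
    refine sum_congr rfl fun v _ => ?_
    rw [AddMonoidAlgebra.ofCoeff_single, phi_single]
  rw [h]
  refine (nm_sum_le _ _).trans ?_
  rw [nm_eq_sum p _ subset_rfl]
  exact sum_le_sum fun v _ => by rw [nm_single]

theorem mon_add (v w : Fin d → ℤ) : (mon (v + w) : Lau d) = mon v * mon w := by
  simp [mon, AddMonoidAlgebra.single_mul_single]

@[simp] theorem mon_zero : (mon 0 : Lau d) = 1 := rfl

/-- the augmentation -/
noncomputable def aug : Lau d →+* ℤ :=
  (AddMonoidAlgebra.lift ℤ ℤ (Fin d → ℤ) 1 : Lau d →ₐ[ℤ] ℤ)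

theorem aug_apply (p : Lau d) : aug p = ∑ v ∈ p.coeff.support, p.coeff v := by
  unfold aug
  change AddMonoidAlgebra.lift ℤ ℤ (Fin d → ℤ) 1 p = _
  rw [AddMonoidAlgebra.lift_apply]
  simp [Finsupp.sum]

@[simp] theorem aug_mon (v : Fin d → ℤ) : aug (mon v : Lau d) = 1 := by
  unfold aug mon
  change AddMonoidAlgebra.lift ℤ ℤ (Fin d → ℤ) 1 (AddMonoidAlgebra.single v 1) = _
  rw [AddMonoidAlgebra.lift_single]
  simp

/-- The norm of a Laurent polynomial with nonnegative coefficients. -/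
theorem nm_of_nonneg (p : Lau d) (h : ∀ v, 0 ≤ p.coeff v) : (nm p : ℤ) = aug p := by
  rw [aug_apply, nm]
  push_cast
  exact sum_congr rfl fun v _ => abs_of_nonneg (h v)

end Pool.Agent.Minor
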