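import Mathlib
import Pool.Agent.Helper8_Minor.Norm
import Pool.Agent.Helper8_Minor.Stmt

/-!
# Fox calculus of words: chain rule, Cauchy-Binet, fundamental identity, Hamming bound
-/

set_option autoImplicit false

namespace Pool.Agent.Minor

open Finset Pool.Agent.Helper94_Pisot

variable {d : ℕ}

/-- The action of a substitution on contents. -/
def cont (t : Fin d → List (Fin d)) : (Fin d → ℤ) →+ (Fin d → ℤ) where
  toFun v := ∑ a, v a • ab (t a)
  map_zero' := by simp
  map_add' v w := by
    rw [← sum_add_distrib]
    exact sum_congr rfl fun a _ => by rw [Pi.add_apply, add_smul]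

theorem cont_apply (t : Fin d → List (Fin d)) (v : Fin d → ℤ) :
    cont t v = ∑ a, v a • ab (t a) := rfl

theorem cont_single (t : Fin d → List (Fin d)) (a : Fin d) :
    cont t (Pi.single a 1) = ab (t a) := by
  classical
  rw [cont_apply, sum_eq_single a]
  · simp
  · intro b _ hb
    simp [Pi.single_eq_of_ne hb]
  · simp

theorem cont_ab (t : Fin d → List (Fin d)) (w : List (Fin d)) :
    cont t (ab w) = ab (w.flatMap t) := by
  induction w with
  | nil => simp
  | cons a w ih =>
    rw [ab_cons, map_add, cont_single, ih, List.flatMap_cons, ab_append]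

@[simp] theorem fox_nil (i : Fin d) : fox ([] : List (Fin d)) i = 0 := rfl

theorem fox_cons (a : Fin d) (w : List (Fin d)) (i : Fin d) :
    fox (a :: w) i = (if a = i then 1 else 0) + var a * fox w i := rfl

theorem fox_singleton (a i : Fin d) : fox [a] i = if a = i then 1 else 0 := by
  rw [fox_cons, fox_nil, mul_zero, add_zero]

theorem fox_append (u v : List (Fin d)) (i : Fin d) :
    fox (u ++ v) i = fox u i + mon (ab u) * fox v i := by
  induction u with
  | nil => simp
  | cons a u ih =>
    rw [List.cons_append, fox_cons, ih, fox_cons, ab_cons, mon_add, var]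
    ring

/-- The chain rule. -/
theorem fox_flatMap (t : Fin d → List (Fin d)) (w : List (Fin d)) (i : Fin d) :
    fox (w.flatMap t) i = ∑ j, phi (cont t) (fox w j) * fox (t j) i := by
  classical
  induction w with
  | nil => simp
  | cons a w ih =>
    rw [List.flatMap_cons, fox_append, ih]
    have h : ∀ j, phi (cont t) (fox (a :: w) j) * fox (t j) i =
        (if a = j then fox (t j) i else 0) +
          mon (ab (t a)) * (phi (cont t) (fox w j) * fox (t j) i) := by
      intro j
      rw [fox_cons, map_add, map_mul, var, phi_mon, cont_single]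
      split_ifs <;> simp <;> ring
    rw [sum_congr rfl fun j _ => h j, sum_add_distrib, ← mul_sum]
    simp

/-- The fundamental identity. -/
theorem fundamental (w : List (Fin d)) :
    ∑ i, fox w i * (1 - var i) = 1 - mon (ab w) := by
  classical
  induction w with
  | nil => simp
  | cons a w ih =>
    have h : ∀ i, fox (a :: w) i * (1 - var i) =
        (if a = i then (1 - var i) else 0) + var a * (fox w i * (1 - var i)) := by
      intro i
      rw [fox_cons]
      split_ifs <;> ring
    rw [sum_congr rfl fun i _ => h i, sum_add_distrib, ← mul_sum, ih, ab_cons, mon_add]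
    simp only [sum_ite_eq, mem_univ, if_true]
    rw [var]
    ring

/-! ### Splitting double sums -/

theorem sum_pairs {R : Type*} [AddCommMonoid R] (f : Fin d → Fin d → R) :
    ∑ i, ∑ j, f i j = ∑ p : Pairs d, (f p.1.1 p.1.2 + f p.1.2 p.1.1) + ∑ i, f i i := by
  classical
  have h1 : ∑ p : Pairs d, f p.1.1 p.1.2 =
      ∑ p ∈ (univ : Finset (Fin d × Fin d)).filter (fun p => p.1 < p.2), f p.1 p.2 := by
    rw [← sum_subtype_eq_sum_filter, Finset.subtype_univ]
  have h2 : ∑ p : Pairs d, f p.1.2 p.1.1 =
      ∑ p ∈ (univ : Finset (Fin d × Fin d)).filter (fun p => p.2 < p.1), f p.1 p.2 := by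
    have h3 : ∑ p : Pairs d, f p.1.2 p.1.1 =
        ∑ p ∈ (univ : Finset (Fin d × Fin d)).filter (fun p => p.1 < p.2), f p.2 p.1 := by
      rw [← sum_subtype_eq_sum_filter, Finset.subtype_univ]
    rw [h3]
    refine sum_bij (fun p _ => p.swap) ?_ ?_ ?_ ?_
    · intro p hp
      simpa using hp
    · intro p _ q _ hpq
      exact Prod.swap_injective hpq
    · intro p hp
      exact ⟨p.swap, by simpa using hp, by simp⟩
    · intro p _
      rfl
  have h4 : ∑ i, f i i =
      ∑ p ∈ (univ : Finset (Fin d × Fin d)).filter (fun p => p.1 = p.2), f p.1 p.2 := by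
    refine sum_bij (fun i _ => (i, i)) ?_ ?_ ?_ ?_
    · intro i _
      simp
    · intro i _ j _ hij
      exact (Prod.ext_iff.1 hij).1
    · intro p hp
      refine ⟨p.1, mem_univ _, ?_⟩
      simp only [mem_filter, mem_univ, true_and] at hp
      exact Prod.ext rfl hp
    · intro i _
      rfl
  rw [sum_add_distrib, h1, h2, h4, ← Finset.sum_product' univ univ f, univ_product_univ,
    ← sum_filter_add_sum_filter_not (univ : Finset (Fin d × Fin d)) (fun p => p.1 < p.2),
    add_assoc]
  congr 1
  rw [← sum_filter_add_sum_filter_not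
    ((univ : Finset (Fin d × Fin d)).filter (fun p => ¬ p.1 < p.2)) (fun p => p.2 < p.1)]
  congr 1
  · refine sum_congr ?_ fun _ _ => rfl
    ext p
    simp only [mem_filter, mem_univ, true_and]
    constructor
    · rintro ⟨_, h⟩
      exact h
    · intro h
      exact ⟨not_lt.2 h.le, h⟩
  · refine sum_congr ?_ fun _ _ => rfl
    ext p
    simp only [mem_filter, mem_univ, true_and]
    constructor
    · rintro ⟨h1, h2⟩
      exact le_antisymm (not_lt.1 h2) (not_lt.1 h1)
    · intro h
      exact ⟨by rw [h]; exact lt_irrefl _, by rw [h]; exact lt_irrefl _⟩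

/-- Cauchy-Binet for `2 × 2` minors. -/
theorem cauchy_binet {R : Type*} [CommRing R] (u v : Fin d → R) (B : Fin d → Fin d → R)
    (k l : Fin d) :
    (∑ j, u j * B j k) * (∑ j, v j * B j l) - (∑ j, u j * B j l) * (∑ j, v j * B j k) =
      ∑ p : Pairs d, (u p.1.1 * v p.1.2 - u p.1.2 * v p.1.1) *
        (B p.1.1 k * B p.1.2 l - B p.1.1 l * B p.1.2 k) := by
  classical
  have h : (∑ j, u j * B j k) * (∑ j, v j * B j l) - (∑ j, u j * B j l) * (∑ j, v j * B j k) =
      ∑ i, ∑ j, u i * v j * (B i k * B j l - B i l * B j k) := by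
    rw [sum_mul_sum, sum_mul_sum, ← sum_sub_distrib]
    refine sum_congr rfl fun i _ => ?_
    rw [← sum_sub_distrib]
    exact sum_congr rfl fun j _ => by ring
  rw [h, sum_pairs]
  have h2 : ∑ i, u i * v i * (B i k * B i l - B i l * B i k) = 0 :=
    sum_eq_zero fun i _ => by ring
  rw [h2, add_zero]
  exact sum_congr rfl fun p _ => by ring

/-- Cauchy-Binet for the abelianized Fox matrices of a composition. -/
theorem minor_comp (s t : Fin d → List (Fin d)) (a b k l : Fin d) :
    minor (fun x => (s x).flatMap t) a b k l =
      ∑ p : Pairs d, phi (cont t) (minor s a b p.1.1 p.1.2) * minor t p.1.1 p.1.2 k l := by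
  unfold minor
  simp only [fox_flatMap]
  rw [cauchy_binet (fun j => phi (cont t) (fox (s a) j)) (fun j => phi (cont t) (fox (s b) j))
    (fun j i => fox (t j) i) k l]
  refine sum_congr rfl fun p _ => ?_
  rw [map_sub, map_mul, map_mul]

theorem kap_comp (s t : Fin d → List (Fin d)) (p q : Pairs d) :
    kap (fun x => (s x).flatMap t) p q ≤ (kap s * kap t) p q := by
  have h : kap (fun x => (s x).flatMap t) p q =
      nm (minor (fun x => (s x).flatMap t) p.1.1 p.1.2 q.1.1 q.1.2) := rfl
  rw [h, minor_comp, Matrix.mul_apply]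
  refine (nm_sum_le _ _).trans (sum_le_sum fun m _ => ?_)
  exact (nm_mul_le _ _).trans (Nat.mul_le_mul_right _ (nm_phi_le _ _))

theorem minor_self (t : Fin d → List (Fin d)) (a i j : Fin d) : minor t a a i j = 0 := by
  unfold minor
  ring

theorem minor_swap (t : Fin d → List (Fin d)) (a b i j : Fin d) :
    minor t b a i j = - minor t a b i j := by
  unfold minor
  ring

theorem minor_self' (t : Fin d → List (Fin d)) (a b i : Fin d) : minor t a b i i = 0 := by
  unfold minor
  ring

theorem minor_swap' (t : Fin d → List (Fin d)) (a b i j : Fin d) :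
    minor t a b j i = - minor t a b i j := by
  unfold minor
  ring

/-- A bound for the minors with increasing indices is a bound for all minors. -/
theorem nm_minor_le {t : Fin d → List (Fin d)} {B : ℝ} (hB : 0 ≤ B)
    (h : ∀ p q : Pairs d, (kap t p q : ℝ) ≤ B) (a b i j : Fin d) :
    (nm (minor t a b i j) : ℝ) ≤ B := by
  have key : ∀ a b i j : Fin d, a < b → (nm (minor t a b i j) : ℝ) ≤ B := by
    intro a b i j hab
    rcases lt_trichotomy i j with hij | hij | hij
    · exact h ⟨(a, b), hab⟩ ⟨(i, j), hij⟩
    · subst hij
      rw [minor_self']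
      simpa using hB
    · rw [minor_swap' t a b j i, nm_neg]
      exact h ⟨(a, b), hab⟩ ⟨(j, i), hij⟩
  rcases lt_trichotomy a b with hab | hab | hab
  · exact key a b i j hab
  · subst hab
    rw [minor_self]
    simpa using hB
  · rw [minor_swap t b a, nm_neg]
    exact key b a i j hab

/-! ### The Hamming bound -/

/-- the degree of an element of `ℤ^d` -/
def dg (v : Fin d → ℤ) : ℤ := ∑ i, v i

theorem dg_add (v w : Fin d → ℤ) : dg (v + w) = dg v + dg w := by
  simp [dg, sum_add_distrib]

theorem dg_single (a : Fin d) : dg (Pi.single a (1 : ℤ)) = 1 := by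
  classical
  simp [dg]

theorem nm_add_of_disjoint (p q : Lau d) (s : ℤ) (hp : ∀ v, p.coeff v ≠ 0 → dg v = s)
    (hq : ∀ v, q.coeff v ≠ 0 → s < dg v) : nm (p + q) = nm p + nm q := by
  classical
  have h1 := nm_eq_sum p (p.coeff.support ∪ q.coeff.support) subset_union_left
  have h2 := nm_eq_sum q (p.coeff.support ∪ q.coeff.support) subset_union_right
  have h3 := nm_eq_sum (p + q) (p.coeff.support ∪ q.coeff.support) (by
    rw [AddMonoidAlgebra.coeff_add]
    exact Finsupp.support_add)
  rw [h1, h2, h3, ← sum_add_distrib]
  refine sum_congr rfl fun v _ => ?_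
  rw [AddMonoidAlgebra.coeff_add, Finsupp.add_apply]
  by_cases h : p.coeff v = 0
  · simp [h]
  · have h5 : q.coeff v = 0 := by
      by_contra h6
      have := hp v h
      have := hq v h6
      omega
    simp [h5]

theorem dg_mon_mul (p : Fin d → ℤ) (w : List (Fin d)) (i : Fin d) :
    ∀ v, (mon p * fox w i).coeff v ≠ 0 → dg p ≤ dg v := by
  classical
  induction w generalizing p with
  | nil => intro v hv; simp at hv
  | cons a w ih =>
    intro v hv
    rw [fox_cons, mul_add, ← mul_assoc, var, ← mon_add, AddMonoidAlgebra.coeff_add,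
      Finsupp.add_apply] at hv
    by_cases h : (mon (p + Pi.single a 1) * fox w i).coeff v = 0
    · rw [h, add_zero] at hv
      split_ifs at hv
      · rw [mul_one, mon, AddMonoidAlgebra.coeff_single, Finsupp.single_apply] at hv
        split_ifs at hv with h3
        · rw [h3]
        · exact absurd rfl hv
      · simp at hv
    · have := ih (p + Pi.single a 1) v h
      rw [dg_add, dg_single] at this
      omega

theorem ham_le_aux (u v : List (Fin d)) : ∀ p q : Fin d → ℤ, dg p = dg q →
    ham u v ≤ ∑ i, nm (mon p * fox u i - mon q * fox v i) := by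
  classical
  induction u generalizing v with
  | nil => intro p q _; simp
  | cons a u ih =>
    cases v with
    | nil => intro p q _; simp
    | cons b v =>
      intro p q hpq
      have h1 : ∀ i, mon p * fox (a :: u) i - mon q * fox (b :: v) i =
          ((if a = i then mon p else 0) - (if b = i then mon q else 0)) +
          (mon (p + Pi.single a 1) * fox u i - mon (q + Pi.single b 1) * fox v i) := by
        intro i
        rw [fox_cons, fox_cons, mon_add, mon_add, var, var]
        split_ifs <;> ring
      have h2 : ∀ i, nm (mon p * fox (a :: u) i - mon q * fox (b :: v) i) =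
          nm ((if a = i then mon p else 0) - (if b = i then mon q else 0) : Lau d) +
          nm (mon (p + Pi.single a 1) * fox u i - mon (q + Pi.single b 1) * fox v i) := by
        intro i
        rw [h1]
        refine nm_add_of_disjoint _ _ (dg p) ?_ ?_
        · intro w hw
          rw [AddMonoidAlgebra.coeff_sub, Finsupp.sub_apply] at hw
          by_cases h3 : w = p
          · rw [h3]
          · by_cases h4 : w = q
            · rw [h4, hpq]
            · exfalso
              apply hw
              have h5 : (mon p : Lau d).coeff w = 0 := by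
                rw [mon, AddMonoidAlgebra.coeff_single, Finsupp.single_apply,
                  if_neg (Ne.symm h3)]
              have h6 : (mon q : Lau d).coeff w = 0 := by
                rw [mon, AddMonoidAlgebra.coeff_single, Finsupp.single_apply,
                  if_neg (Ne.symm h4)]
              split_ifs <;> simp [h5, h6]
        · intro w hw
          rw [AddMonoidAlgebra.coeff_sub, Finsupp.sub_apply] at hw
          by_cases h3 : (mon (p + Pi.single a 1) * fox u i).coeff w = 0
          · have h4 : (mon (q + Pi.single b 1) * fox v i).coeff w ≠ 0 := by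
              intro h5
              apply hw
              rw [h3, h5, sub_zero]
            have := dg_mon_mul _ _ _ w h4
            rw [dg_add, dg_single] at this
            omega
          · have := dg_mon_mul _ _ _ w h3
            rw [dg_add, dg_single] at this
            omega
      rw [sum_congr rfl fun i _ => h2 i, sum_add_distrib, ham_cons_cons]
      refine Nat.add_le_add ?_ (ih v _ _ ?_)
      · by_cases hab : a = b
        · simp [hab]
        · rw [if_neg hab]
          calc 1 = nm ((if a = a then mon p else 0) - (if b = a then mon q else 0) : Lau d) := by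
                rw [if_pos rfl, if_neg (Ne.symm hab), sub_zero, nm_mon]
            _ ≤ _ := single_le_sum
                (f := fun i => nm ((if a = i then mon p else 0) - (if b = i then mon q else 0)
                  : Lau d)) (fun _ _ => Nat.zero_le _) (mem_univ a)
      · rw [dg_add, dg_add, dg_single, dg_single, hpq]

theorem ham_le (u v : List (Fin d)) : ham u v ≤ ∑ i, nm (fox u i - fox v i) := by
  have := ham_le_aux u v 0 0 rfl
  simpa using this

theorem ham_swap_le (A B : List (Fin d)) (t : Fin d → List (Fin d)) (a b : Fin d)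
    (hA : t a = A) (hB : t b = B) :
    ham (A ++ B) (B ++ A) ≤ ∑ i, ∑ j, 2 * nm (minor t a b i j) := by
  refine (ham_le _ _).trans (sum_le_sum fun i _ => ?_)
  have h : fox (A ++ B) i - fox (B ++ A) i = ∑ j, (1 - var j) * minor t a b i j := by
    rw [fox_append, fox_append]
    have h1 : fox A i + mon (ab A) * fox B i - (fox B i + mon (ab B) * fox A i) =
        (1 - mon (ab B)) * fox A i - (1 - mon (ab A)) * fox B i := by ring
    rw [h1, ← fundamental, ← fundamental, sum_mul, sum_mul, ← sum_sub_distrib]
    refine sum_congr rfl fun j _ => ?_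
    unfold minor
    rw [hA, hB]
    ring
  rw [h]
  refine (nm_sum_le _ _).trans (sum_le_sum fun j _ => ?_)
  refine (nm_mul_le _ _).trans (Nat.mul_le_mul_right _ ?_)
  exact (nm_sub_le _ _).trans (by simp [var])

/-- Small minors imply small Hamming distances. -/
theorem swap_stmt : SwapStmt := by
  intro d σ r hr h ε hε
  obtain ⟨J, hJ⟩ := h (ε / (2 * d * d + 1)) (by positivity)
  refine ⟨J, fun a b => ?_⟩
  have h1 : it σ J [a, b] = it σ J [a] ++ it σ J [b] := by
    rw [← it_append]; rfl
  have h2 : it σ J [b, a] = it σ J [b] ++ it σ J [a] := by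
    rw [← it_append]; rfl
  rw [h1, h2]
  have h3 := ham_swap_le (it σ J [a]) (it σ J [b]) (fun x => it σ J [x]) a b rfl rfl
  have h4 : (ham (it σ J [a] ++ it σ J [b]) (it σ J [b] ++ it σ J [a]) : ℝ) ≤
      ∑ i : Fin d, ∑ j : Fin d, 2 * (nm (minor (fun x => it σ J [x]) a b i j) : ℝ) := by
    exact_mod_cast h3
  refine h4.trans ?_
  have h5 : ∑ i : Fin d, ∑ j : Fin d, 2 * (nm (minor (fun x => it σ J [x]) a b i j) : ℝ) ≤
      ∑ _i : Fin d, ∑ _j : Fin d, 2 * (ε / (2 * d * d + 1) * r ^ J) :=
    sum_le_sum fun i _ => sum_le_sum fun j _ => by linarith [hJ a b i j]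
  refine h5.trans ?_
  simp only [sum_const, card_univ, Fintype.card_fin, nsmul_eq_mul]
  have h6 : 0 < r ^ J := pow_pos hr J
  have h7 : (d : ℝ) * (d * (2 * (ε / (2 * d * d + 1) * r ^ J))) =
      (2 * d * d / (2 * d * d + 1)) * (ε * r ^ J) := by
    field_simp
  rw [h7]
  have h8 : (2 * (d : ℝ) * d / (2 * d * d + 1)) ≤ 1 := by
    rw [div_le_one (by positivity)]
    linarith
  have h9 : 0 < ε * r ^ J := mul_pos hε h6
  nlinarith

/-! ### Powers and compositions -/

theorem le_mul_of_le {A A' B B' : Matrix (Pairs d) (Pairs d) ℕ} (hA : ∀ p q, A p q ≤ A' p q)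
    (hB : ∀ p q, B p q ≤ B' p q) (p q : Pairs d) : (A * B) p q ≤ (A' * B') p q := by
  rw [Matrix.mul_apply, Matrix.mul_apply]
  exact sum_le_sum fun m _ => Nat.mul_le_mul (hA p m) (hB m q)

theorem kap_id (p q : Pairs d) : kap (fun x : Fin d => [x]) p q ≤ (1 : Matrix _ _ ℕ) p q := by
  classical
  unfold kap minor
  simp only [fox_singleton]
  have hp := p.2
  have hq := q.2
  by_cases h1 : p.1.1 = q.1.1
  · by_cases h2 : p.1.2 = q.1.2
    · have h3 : p = q := Subtype.ext (Prod.ext h1 h2)
      have h4 : ¬ (q.1.2 = q.1.1) := ne_of_gt hq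
      subst h3
      rw [Matrix.one_apply_eq, if_pos rfl, if_pos rfl, if_neg h4, mul_zero, sub_zero, mul_one,
        nm_one]
    · have h4 : ¬ (q.1.1 = q.1.2) := ne_of_lt hq
      rw [h1, if_neg h2, if_neg h4]
      simp
  · by_cases h5 : p.1.1 = q.1.2
    · by_cases h6 : p.1.2 = q.1.1
      · exfalso
        rw [h5, h6] at hp
        exact lt_asymm hp hq
      · rw [if_neg h1, if_neg h6]
        simp
    · rw [if_neg h1, if_neg h5]
      simp

theorem kap_foldl (L : List (Fin d → List (Fin d))) (s : Fin d → List (Fin d)) (p q : Pairs d) :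
    kap (fun a => L.foldl (fun w t => w.flatMap t) (s a)) p q ≤
      (kap s * (L.map kap).prod) p q := by
  induction L generalizing s with
  | nil => simp
  | cons t L ih =>
    rw [List.map_cons, List.prod_cons, ← mul_assoc]
    refine (ih (fun a => (s a).flatMap t)).trans ?_
    exact le_mul_of_le (kap_comp s t) (fun _ _ => le_rfl) p q

theorem kap_it_add (σ : Fin d → List (Fin d)) (m n : ℕ) (p q : Pairs d) :
    kap (fun x => it σ (m + n) [x]) p q ≤
      (kap (fun x => it σ n [x]) * kap (fun x => it σ m [x])) p q := by
  have h : (fun x => it σ (m + n) [x]) =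
      fun x => (it σ n [x]).flatMap (fun y => it σ m [y]) := by
    funext x
    rw [it_add, it_eq_flatMap]
  rw [h]
  exact kap_comp _ _ p q

/-- Part A. -/
theorem kap_stmt : KapStmt := by
  intro d σ r hr L e hL hK ε hε
  obtain ⟨n, hn⟩ := hK ε hε
  have h1 : ∀ p q, kap (fun x => it σ e [x]) p q ≤ ((L.map kap).prod) p q := by
    intro p q
    have h2 : (fun x => it σ e [x]) =
        fun x => L.foldl (fun w t => w.flatMap t) [x] := funext hL
    rw [h2]
    refine (kap_foldl L (fun x => [x]) p q).trans ?_
    have := le_mul_of_le (A := kap (fun x : Fin d => [x])) (A' := 1) (B := (L.map kap).prod)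
      (B' := (L.map kap).prod) kap_id (fun _ _ => le_rfl) p q
    rwa [one_mul] at this
  have h3 : ∀ n p q, kap (fun x => it σ (e * n) [x]) p q ≤ ((L.map kap).prod ^ n) p q := by
    intro n
    induction n with
    | zero =>
      intro p q
      rw [pow_zero]
      exact kap_id p q
    | succ n ih =>
      intro p q
      rw [pow_succ', mul_add, mul_one]
      refine (kap_it_add σ (e * n) e p q).trans ?_
      exact le_mul_of_le h1 ih p q
  refine ⟨e * n, fun a b i j => ?_⟩
  refine nm_minor_le (by positivity) (fun p q => ?_) a b i j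
  exact le_trans (by exact_mod_cast h3 n p q) (hn p q)

end Pool.Agent.Minor
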